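import Pool.Agent.Y875.FP.MerH

/-!
# The exact index of every number `2^t - 1` and `2^t + 1` modulo a Fermat prime

Let `m = j + r`, `r ≥ 4` and `t = 2^j s`, `s` odd.  The `2^(r+1)`-th power residue symbol of
`2^t - 1` modulo a Fermat prime `F_m` is given by a truncated `2`-adic logarithmic series with
signs, and so is the `2^r`-th power residue symbol of `2^t + 1`.  If the index is not `0`, then
`F_m` is prime if and only if the congruence holds, and if and only if `2^t - 1` (`2^t + 1`) has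
the order which the index gives.
-/

set_option autoImplicit false

namespace Pool.Agent.Results.MP_37e5fa_nt.AllExponents

/-- The sign `ε(k)`: it is `+1` if the least residue of `k / s` modulo `2^(r+1)` is less than
`2^r`, and `-1` otherwise. -/
def sgn (r s k : ℕ) : ℤ :=
  if ((k : ZMod (2 ^ (r + 1))) * (s : ZMod (2 ^ (r + 1)))⁻¹).val < 2 ^ r then 1 else -1

/-- `4 E ≡ s ∑_{k=1}^{2r+4} ε(k) 2^(2^j k) / k` modulo `2^(r+3)`, in the ring of rational numbers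
with odd denominator. -/
def Ind (j r s E : ℕ) : Prop :=
  ∃ d n : ℤ, Odd d ∧
    (d : ℚ) * (4 * E - s * ∑ k ∈ Finset.Icc 1 (2 * r + 4), (sgn r s k : ℚ) * 2 ^ (2 ^ j * k) / k) =
      2 ^ (r + 3) * n

lemma ind_iff (j r s E : ℕ) :
    Ind j r s E ↔ Pool.Agent.Y875.FP.IsInd r (2 ^ 2 ^ j) s (2 * r + 4) E := by
  unfold Ind Pool.Agent.Y875.FP.IsInd
  have h1 : ∑ k ∈ Finset.Icc 1 (2 * r + 4), (sgn r s k : ℚ) * 2 ^ (2 ^ j * k) / k =
      Pool.Agent.Y875.FP.AA r (2 ^ 2 ^ j) s (2 * r + 4) := by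
    unfold Pool.Agent.Y875.FP.AA
    have h2 : Finset.Icc 1 (2 * r + 4) = Finset.Ico 1 (2 * r + 4 + 1) := by
      ext k
      simp only [Finset.mem_Icc, Finset.mem_Ico]
      omega
    rw [h2, Finset.sum_Ico_eq_sum_range, Nat.add_sub_cancel]
    refine Finset.sum_congr rfl fun k _ => ?_
    rw [add_comm 1 k, mul_div_assoc, pow_mul]
    push_cast
    rfl
  rw [h1]

lemma two_pow (m : ℕ) : (2 : ZMod (Nat.fermatNumber m)) ^ (2 ^ m) = -1 := by
  have h1 : ((Nat.fermatNumber m : ℕ) : ZMod (Nat.fermatNumber m)) = 0 := ZMod.natCast_self _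
  conv at h1 => lhs; arg 1; unfold Nat.fermatNumber
  push_cast at h1
  linear_combination h1

open Pool.Agent.Y875.FP in
lemma Q4_AA (j r s : ℕ) : Q4 (AA r (2 ^ 2 ^ j) s (2 * r + 4)) := by
  rcases Nat.eq_zero_or_pos j with rfl | hj
  · exact Pool.Agent.Y875.FP.Q4_AA r s (2 * r + 2)
  unfold AA
  apply Finset.sum_induction _ Q4
  · intro a b ha hb
    exact Q4_add ha hb
  · exact ⟨1, 0, odd_one, by simp⟩
  · intro k _
    apply Q4_mul_int
    obtain ⟨e, o, ho, hk⟩ := Nat.exists_eq_two_pow_mul_odd (n := k + 1) (by omega)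
    have h1 : e + 2 ≤ 2 ^ j * (k + 1) := by
      have h2 : 2 ≤ 2 ^ j := by
        calc 2 = 2 ^ 1 := by norm_num
          _ ≤ 2 ^ j := Nat.pow_le_pow_right (by norm_num) hj
      have h3 : e + 1 ≤ 2 ^ e := Nat.lt_two_pow_self
      have h4 : 2 ^ e ≤ k + 1 := by rw [hk]; exact Nat.le_mul_of_pos_right _ ho.pos
      nlinarith
    obtain ⟨a, ha⟩ : ∃ a, 2 ^ j * (k + 1) = e + 2 + a := ⟨2 ^ j * (k + 1) - (e + 2), by omega⟩
    refine ⟨o, 2 ^ a, by exact_mod_cast ho, ?_⟩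
    have hcast : (((2 ^ 2 ^ j : ℕ) : ℚ)) ^ (k + 1) = 2 ^ (e + 2 + a) := by
      push_cast
      rw [← pow_mul, ha]
    rw [hcast]
    have hk' : ((k + 1 : ℕ) : ℚ) = 2 ^ e * o := by rw [hk]; push_cast; ring
    rw [hk']
    have ho0 : (o : ℚ) ≠ 0 := by exact_mod_cast ho.pos.ne'
    push_cast
    field_simp
    ring

open Pool.Agent.Y875.FP in
lemma exists_ind (j r s : ℕ) : ∃ E : ℕ, Ind j r s E := by
  obtain ⟨d, B, hd, h1⟩ := Q4_mul_int (Q4_AA j r s) (s : ℤ)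
  have hcop : IsCoprime (d : ℤ) ((2 : ℤ) ^ (r + 1)) := by
    apply IsCoprime.pow_right
    obtain ⟨c, hc⟩ := hd
    exact ⟨1, -c, by rw [hc]; ring⟩
  obtain ⟨u, v, huv⟩ := hcop
  -- `E ≡ u B`
  have hpos : (0 : ℤ) < 2 ^ (r + 1) := by positivity
  refine ⟨((u * B) % (2 ^ (r + 1))).toNat, (ind_iff _ _ _ _).mpr
    ⟨d, -(v * B) - d * ((u * B) / 2 ^ (r + 1)), hd, ?_⟩⟩
  have h2 : ((((u * B) % (2 ^ (r + 1))).toNat : ℕ) : ℤ) = (u * B) % (2 ^ (r + 1)) :=
    Int.toNat_of_nonneg (Int.emod_nonneg _ hpos.ne')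
  have h3 : (((((u * B) % (2 ^ (r + 1))).toNat : ℕ)) : ℚ) =
      (((u * B) % (2 ^ (r + 1)) : ℤ) : ℚ) := by exact_mod_cast h2
  have h4 := Int.emod_add_mul_ediv (u * B) (2 ^ (r + 1))
  have h5 : (((u * B) % (2 ^ (r + 1)) : ℤ) : ℚ) + 2 ^ (r + 1) * (((u * B) / 2 ^ (r + 1) : ℤ) : ℚ) =
      (u : ℚ) * B := by exact_mod_cast h4
  have h6 : (u : ℚ) * d + v * 2 ^ (r + 1) = 1 := by exact_mod_cast huv
  rw [h3]
  push_cast at h1 h5 ⊢
  have e1 : (2 : ℚ) ^ (r + 3) = 4 * 2 ^ (r + 1) := by ring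
  rw [e1]
  linear_combination 4 * (d : ℚ) * h5 - h1 + 4 * (B : ℚ) * h6

/-- the law for `2^t - 1` -/
lemma law {j r s E : ℕ} (hr : 4 ≤ r) (hs : Odd s) (hE : Ind j r s E)
    (hF : (Nat.fermatNumber (j + r)).Prime) :
    ((2 : ZMod (Nat.fermatNumber (j + r))) ^ (2 ^ j * s) - 1) ^ (2 ^ (2 ^ (j + r) - (r + 1))) =
      2 ^ (2 ^ j * E) := by
  have : Fact (Nat.fermatNumber (j + r)).Prime := ⟨hF⟩
  have hbig : ∀ m : ℕ, 4 ≤ m → 2 * m + 4 < 2 ^ m := by
    intro m hm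
    induction m, hm using Nat.le_induction with
    | base => norm_num
    | succ m hm ih => rw [pow_succ]; omega
  have hb := hbig r hr
  have hbd := Pool.Agent.Y875.FP.exp_bound (j := j) (r := r) (by omega)
  have hbd2 := Pool.Agent.Y875.FP.exp_bound2 (j := j) (r := r) (by omega) (by omega)
  have hpow : (2 ^ 2 ^ j) ^ 2 ^ r = 2 ^ 2 ^ (j + r) := by
    rw [← pow_mul, ← pow_add]
  have hp : Nat.fermatNumber (j + r) = (2 ^ 2 ^ j) ^ 2 ^ r + 1 := by rw [hpow]; rfl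
  have h3 := Nat.three_le_fermatNumber (j + r)
  have h4 := Pool.Agent.Y875.FP.index_law (x := 2 ^ 2 ^ j) (m := r)
    (T := 2 ^ (2 ^ (j + r) - (r + 1))) hp (by omega) ?_ (by omega) ?_ ?_ ?_ hs hb ?_
    ((ind_iff _ _ _ _).mp hE)
  · push_cast at h4
    rw [← pow_mul, ← pow_mul] at h4
    exact h4
  · rw [hpow, ← pow_add, Nat.add_sub_cancel' (by omega)]
  · rw [Nat.even_pow]
    exact ⟨even_two, by omega⟩
  · obtain ⟨c, hc⟩ : 2 ^ (j + r + 1) ∣ 2 ^ (2 ^ (j + r) - (r + 1)) := Nat.pow_dvd_pow 2 hbd2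
    rw [hc, pow_mul, pow_succ, pow_mul, two_pow]
    simp
  · exact Or.inr ⟨dvd_pow_self 2 (by positivity), by omega⟩
  · intro e o ho h
    refine (Pool.Agent.Y875.FP.prec_two ho h).trans ?_
    rw [← pow_mul]
    exact pow_dvd_pow 2 (Nat.le_mul_of_pos_left _ (by positivity))

/-- an element of order `2^(2^m - v)` forces `F_m` to be prime -/
lemma prime_of_order {m v : ℕ} (hm : 2 ≤ m) (hv : v ≤ m) (b : ℕ)
    (h : orderOf (b : ZMod (Nat.fermatNumber m)) = 2 ^ (2 ^ m - v)) :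
    (Nat.fermatNumber m).Prime := by
  have hmm : m + 1 ≤ 2 ^ m := Nat.lt_two_pow_self
  set N := Nat.fermatNumber m with hN
  have hN3 : 3 ≤ N := Nat.three_le_fermatNumber m
  obtain ⟨e, he⟩ : ∃ e, 2 ^ m - v = e + 1 := ⟨2 ^ m - v - 1, by omega⟩
  rw [he] at h
  -- a prime factor modulo which `b^(2^e) = -1`
  have h1 : (b : ZMod N) ^ (2 ^ e) ≠ 1 := by
    intro h1
    have h2 := orderOf_dvd_of_pow_eq_one h1
    rw [h] at h2
    have h3 := Nat.le_of_dvd (by positivity) h2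
    rw [pow_succ] at h3
    have : 0 < 2 ^ e := by positivity
    omega
  have h2 : (b : ZMod N) ^ (2 ^ (e + 1)) = 1 := by rw [← h]; exact pow_orderOf_eq_one _
  have hb0 : b ≠ 0 := by
    rintro rfl
    rw [Nat.cast_zero, zero_pow (by positivity)] at h2
    have : Nontrivial (ZMod N) := by
      have : Fact (1 < N) := ⟨by omega⟩
      infer_instance
    exact zero_ne_one h2
  have hX1 : 1 ≤ b ^ (2 ^ e) := Nat.one_le_pow _ _ (Nat.pos_of_ne_zero hb0)
  have h3 : N ∣ (b ^ (2 ^ e) - 1) * (b ^ (2 ^ e) + 1) := by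
    rw [← ZMod.natCast_eq_zero_iff]
    push_cast [Nat.cast_sub hX1]
    rw [pow_succ, pow_mul] at h2
    linear_combination h2
  have h4 : ¬ N ∣ b ^ (2 ^ e) - 1 := by
    rw [← ZMod.natCast_eq_zero_iff]
    push_cast [Nat.cast_sub hX1]
    intro h
    exact h1 (sub_eq_zero.mp h)
  obtain ⟨p, hp, hpN, hpX⟩ : ∃ p : ℕ, p.Prime ∧ p ∣ N ∧ p ∣ b ^ (2 ^ e) + 1 := by
    by_contra hcon
    push Not at hcon
    apply h4
    refine Nat.Coprime.dvd_of_dvd_mul_right ?_ h3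
    rw [Nat.coprime_iff_gcd_eq_one]
    by_contra hg
    obtain ⟨p, hp, hpg⟩ := Nat.exists_prime_and_dvd hg
    exact hcon p hp (hpg.trans (Nat.gcd_dvd_left _ _)) (hpg.trans (Nat.gcd_dvd_right _ _))
  have hfp : Fact p.Prime := ⟨hp⟩
  have hpodd : p ≠ 2 := by
    rintro rfl
    exact (Nat.not_even_iff_odd.mpr (Nat.odd_fermatNumber m)) (even_iff_two_dvd.mpr hpN)
  have h5 : (b : ZMod p) ^ (2 ^ e) = -1 := by
    have h6 : ((b ^ (2 ^ e) + 1 : ℕ) : ZMod p) = 0 := by rwa [ZMod.natCast_eq_zero_iff]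
    push_cast at h6
    linear_combination h6
  have hord : orderOf (b : ZMod p) = 2 ^ (e + 1) := by
    apply orderOf_eq_prime_pow
    · rw [h5]
      have : Fact (2 < p) := ⟨lt_of_le_of_ne hp.two_le (Ne.symm hpodd)⟩
      exact ZMod.neg_one_ne_one
    · rw [pow_succ, pow_mul, h5]
      ring
  have hb0' : (b : ZMod p) ≠ 0 := by
    intro h5'
    rw [h5', zero_pow (by positivity)] at h5
    exact (neg_ne_zero.mpr one_ne_zero) h5.symm
  have hdvd2 : orderOf (b : ZMod p) ∣ p - 1 := ZMod.orderOf_dvd_card_sub_one hb0'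
  rw [hord] at hdvd2
  have hle := Nat.le_of_dvd (by have := hp.two_le; omega) hdvd2
  obtain ⟨c, hc⟩ := hpN
  by_contra hnp
  have hc1 : c ≠ 1 := by
    rintro rfl
    rw [mul_one] at hc
    exact hnp (hc ▸ hp)
  have hc0 : c ≠ 0 := by
    rintro rfl
    omega
  obtain ⟨l, hl, hlc⟩ := Nat.exists_prime_and_dvd hc1
  obtain ⟨d, hd⟩ := Nat.fermat_primeFactors_one_lt m l (by omega) hl
    (hlc.trans (by rw [← hN, hc]; exact dvd_mul_left _ _))
  have hd0 : d ≠ 0 := by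
    rintro rfl
    rw [zero_mul, zero_add] at hd
    exact hl.one_lt.ne' hd
  have hcl : 2 ^ (m + 2) + 1 ≤ c := by
    have h6 := Nat.le_of_dvd (Nat.pos_of_ne_zero hc0) hlc
    have h7 : 2 ^ (m + 2) ≤ d * 2 ^ (m + 2) := Nat.le_mul_of_pos_left _ (Nat.pos_of_ne_zero hd0)
    omega
  have hple : 2 ^ (e + 1) + 1 ≤ p := by have := hp.two_le; omega
  have h8 : (2 ^ (e + 1) + 1) * (2 ^ (m + 2) + 1) ≤ N := by
    rw [hc]; exact Nat.mul_le_mul hple hcl
  have h9 : 2 ^ (2 ^ m) ≤ 2 ^ (e + 1) * 2 ^ (m + 2) := by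
    rw [← pow_add]
    exact Nat.pow_le_pow_right (by norm_num) (by omega)
  have h10 : N = 2 ^ (2 ^ m) + 1 := rfl
  have h11 : 0 < 2 ^ (e + 1) := by positivity
  nlinarith

/-- the order, from the congruence -/
lemma order_of_law {j r y : ℕ} (hr : 2 ≤ r) (hv : ¬ 2 ^ (r + 1) ∣ y)
    {x : ZMod (Nat.fermatNumber (j + r))}
    (h : x ^ (2 ^ (2 ^ (j + r) - (r + 1))) * 2 ^ (2 ^ j * y) = 1) :
    orderOf x = 2 ^ (2 ^ (j + r) - padicValNat 2 y) ∧ padicValNat 2 y ≤ r := by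
  have hN3 := Nat.three_le_fermatNumber (j + r)
  have hy0 : y ≠ 0 := by
    rintro rfl
    exact hv (dvd_zero _)
  obtain ⟨v, w, hw, rfl⟩ := Nat.exists_eq_two_pow_mul_odd hy0
  have hval : padicValNat 2 (2 ^ v * w) = v := by
    rw [padicValNat.mul (by positivity) (by rintro rfl; simp at hw), padicValNat.prime_pow,
      padicValNat.eq_zero_of_not_dvd (fun h => (Nat.not_even_iff_odd.mpr hw)
        (even_iff_two_dvd.mpr h)), add_zero]
  rw [hval]
  have hvr : v ≤ r := by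
    by_contra hvr
    exact hv ((Nat.pow_dvd_pow 2 (by omega)).trans (dvd_mul_right _ _))
  refine ⟨?_, hvr⟩
  have hbd := Pool.Agent.Y875.FP.exp_bound (j := j) hr
  have h3 : (2 : ZMod (Nat.fermatNumber (j + r))) ^ (2 ^ j * (2 ^ v * w) * 2 ^ (r - v)) = -1 := by
    have h4 : 2 ^ j * (2 ^ v * w) * 2 ^ (r - v) = 2 ^ (j + r) * w := by
      have h5 : 2 ^ (j + r) = 2 ^ j * (2 ^ v * 2 ^ (r - v)) := by
        rw [← pow_add, ← pow_add]
        congr 1
        omega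
      rw [h5]
      ring
    rw [h4, pow_mul, two_pow, hw.neg_one_pow]
  have h4 : x ^ (2 ^ (2 ^ (j + r) - (r + 1)) * 2 ^ (r - v)) = -1 := by
    have h5 := congrArg (· ^ (2 ^ (r - v))) h
    simp only [mul_pow, one_pow] at h5
    rw [← pow_mul, ← pow_mul, h3] at h5
    linear_combination -h5
  rw [← pow_add] at h4
  have e : 2 ^ (j + r) - v = (2 ^ (j + r) - (r + 1) + (r - v)) + 1 := by omega
  rw [e]
  apply orderOf_eq_prime_pow
  · rw [h4]
    have : Fact (2 < Nat.fermatNumber (j + r)) := ⟨by omega⟩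
    exact ZMod.neg_one_ne_one
  · rw [pow_succ, pow_mul, h4]
    ring

lemma prime_of_order' {m v : ℕ} (hm : 2 ≤ m) (hv : v ≤ m) (x : ZMod (Nat.fermatNumber m))
    (h : orderOf x = 2 ^ (2 ^ m - v)) : (Nat.fermatNumber m).Prime := by
  have : NeZero (Nat.fermatNumber m) := ⟨by have := Nat.three_le_fermatNumber m; omega⟩
  apply prime_of_order hm hv x.val
  rw [ZMod.natCast_zmod_val]
  exact h

/-- the criteria, from the law -/
lemma crit {j r D : ℕ} (hr : 2 ≤ r) {x : ZMod (Nat.fermatNumber (j + r))} (hD : ¬ 2 ^ (r + 1) ∣ D)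
    (hlaw : (Nat.fermatNumber (j + r)).Prime →
      x ^ (2 ^ (2 ^ (j + r) - (r + 1))) = 2 ^ (2 ^ j * D)) :
    ((Nat.fermatNumber (j + r)).Prime ↔
      x ^ (2 ^ (2 ^ (j + r) - (r + 1))) = 2 ^ (2 ^ j * D)) ∧
    ((Nat.fermatNumber (j + r)).Prime ↔ orderOf x = 2 ^ (2 ^ (j + r) - padicValNat 2 D)) := by
  have hD0 : D ≠ 0 := by
    rintro rfl
    exact hD (dvd_zero _)
  have h1 : 1 ≤ 2 ^ (r + 1) := Nat.one_le_two_pow
  have hodd : ¬ 2 ∣ 2 ^ (r + 1) - 1 := by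
    have : 2 ^ (r + 1) = 2 * 2 ^ r := by ring
    have := Nat.one_le_two_pow (n := r)
    omega
  have hval : padicValNat 2 ((2 ^ (r + 1) - 1) * D) = padicValNat 2 D := by
    rw [padicValNat.mul (by intro h; rw [h] at hodd; exact hodd (dvd_zero _)) hD0,
      padicValNat.eq_zero_of_not_dvd hodd, zero_add]
  have hnd : ¬ 2 ^ (r + 1) ∣ (2 ^ (r + 1) - 1) * D := by
    intro hd
    apply hD
    have hcop : Nat.Coprime (2 ^ (r + 1)) (2 ^ (r + 1) - 1) :=
      Nat.Coprime.pow_left _ ((Nat.Prime.coprime_iff_not_dvd Nat.prime_two).mpr hodd)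
    exact hcop.dvd_of_dvd_mul_left hd
  have hconv : x ^ (2 ^ (2 ^ (j + r) - (r + 1))) = 2 ^ (2 ^ j * D) →
      orderOf x = 2 ^ (2 ^ (j + r) - padicValNat 2 D) ∧ padicValNat 2 D ≤ r := by
    intro h
    have h2 : x ^ (2 ^ (2 ^ (j + r) - (r + 1))) * 2 ^ (2 ^ j * ((2 ^ (r + 1) - 1) * D)) = 1 := by
      rw [h, ← pow_add]
      have h3 : 2 ^ j * D + 2 ^ j * ((2 ^ (r + 1) - 1) * D) = 2 ^ (j + r) * (2 * D) := by
        have h4 : D + (2 ^ (r + 1) - 1) * D = 2 ^ (r + 1) * D := by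
          rw [Nat.sub_mul, one_mul]
          have : D ≤ 2 ^ (r + 1) * D := Nat.le_mul_of_pos_left _ (by positivity)
          omega
        rw [← mul_add, h4]
        ring
      rw [h3, pow_mul, two_pow]
      simp
    have h3 := order_of_law hr hnd h2
    rwa [hval] at h3
  refine ⟨⟨hlaw, fun h => ?_⟩, ⟨fun hF => (hconv (hlaw hF)).1, fun h => ?_⟩⟩
  · obtain ⟨h1, h2⟩ := hconv h
    exact prime_of_order' (by omega) (by omega) _ h1
  · have hvr : padicValNat 2 D ≤ r := by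
      by_contra hvr
      apply hD
      exact (Nat.pow_dvd_pow 2 (by omega)).trans pow_padicValNat_dvd
    exact prime_of_order' (by omega) (by omega) _ h

theorem result (j r s : ℕ) (hr : 4 ≤ r) (hs : Odd s) :
    -- the predicted indices exist
    (∃ E : ℕ, Ind j r s E) ∧ (∃ E D : ℕ, Ind j (r + 1) s E ∧ Ind (j + 1) r s (E + D)) ∧
    -- the numbers `2^t - 1`, `t = 2^j s`, modulo `F_(j+r)`
    (∀ E : ℕ, Ind j r s E →
      ((Nat.fermatNumber (j + r)).Prime →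
        ((2 ^ (2 ^ j * s) - 1 : ℕ) : ZMod (Nat.fermatNumber (j + r))) ^
          ((Nat.fermatNumber (j + r) - 1) / 2 ^ (r + 1)) = 2 ^ (2 ^ j * E)) ∧
      (¬ 2 ^ (r + 1) ∣ E →
        ((Nat.fermatNumber (j + r)).Prime ↔
          ((2 ^ (2 ^ j * s) - 1 : ℕ) : ZMod (Nat.fermatNumber (j + r))) ^
            ((Nat.fermatNumber (j + r) - 1) / 2 ^ (r + 1)) = 2 ^ (2 ^ j * E)) ∧
        ((Nat.fermatNumber (j + r)).Prime ↔
          orderOf ((2 ^ (2 ^ j * s) - 1 : ℕ) : ZMod (Nat.fermatNumber (j + r))) =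
            2 ^ (2 ^ (j + r) - padicValNat 2 E)))) ∧
    -- the numbers `2^t + 1`, `t = 2^j s`, modulo `F_(j+1+r)`
    (∀ E D : ℕ, Ind j (r + 1) s E → Ind (j + 1) r s (E + D) →
      ((Nat.fermatNumber (j + 1 + r)).Prime →
        ((2 ^ (2 ^ j * s) + 1 : ℕ) : ZMod (Nat.fermatNumber (j + 1 + r))) ^
          ((Nat.fermatNumber (j + 1 + r) - 1) / 2 ^ (r + 1)) = 2 ^ (2 ^ (j + 1) * D)) ∧
      (¬ 2 ^ (r + 1) ∣ D →
        ((Nat.fermatNumber (j + 1 + r)).Prime ↔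
          ((2 ^ (2 ^ j * s) + 1 : ℕ) : ZMod (Nat.fermatNumber (j + 1 + r))) ^
            ((Nat.fermatNumber (j + 1 + r) - 1) / 2 ^ (r + 1)) = 2 ^ (2 ^ (j + 1) * D)) ∧
        ((Nat.fermatNumber (j + 1 + r)).Prime ↔
          orderOf ((2 ^ (2 ^ j * s) + 1 : ℕ) : ZMod (Nat.fermatNumber (j + 1 + r))) =
            2 ^ (2 ^ (j + 1 + r) - padicValNat 2 D)))) := by
  have hexp : ∀ j : ℕ, (Nat.fermatNumber (j + r) - 1) / 2 ^ (r + 1) =
      2 ^ (2 ^ (j + r) - (r + 1)) := by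
    intro j
    have hbd := Pool.Agent.Y875.FP.exp_bound (j := j) (r := r) (by omega)
    unfold Nat.fermatNumber
    rw [Nat.add_sub_cancel, Nat.pow_div (by omega) (by norm_num)]
  have hcast : ∀ t N : ℕ, ((2 ^ t - 1 : ℕ) : ZMod N) = 2 ^ t - 1 := by
    intro t N
    rw [Nat.cast_sub Nat.one_le_two_pow]
    push_cast
    ring
  refine ⟨exists_ind j r s, ?_, ?_, ?_⟩
  · obtain ⟨E, hE⟩ := exists_ind j (r + 1) s
    obtain ⟨E', d, n, hd, h⟩ := exists_ind (j + 1) r s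
    -- replace `E'` by `E' + 2^(r+1) E`
    refine ⟨E, E' + (2 ^ (r + 1) - 1) * E, hE, d, n + d * E, hd, ?_⟩
    have h1 : E + (E' + (2 ^ (r + 1) - 1) * E) = E' + 2 ^ (r + 1) * E := by
      have : E ≤ 2 ^ (r + 1) * E := Nat.le_mul_of_pos_left _ (by positivity)
      rw [Nat.sub_mul, one_mul]
      omega
    rw [h1]
    push_cast
    linear_combination h
  · intro E hE
    rw [hexp, hcast]
    have h1 : (Nat.fermatNumber (j + r)).Prime → _ := law hr hs hE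
    exact ⟨h1, fun hd => crit (by omega) hd h1⟩
  · intro E D hE hED
    rw [hexp]
    have h1 : (Nat.fermatNumber (j + 1 + r)).Prime →
        ((2 ^ (2 ^ j * s) + 1 : ℕ) : ZMod (Nat.fermatNumber (j + 1 + r))) ^
          (2 ^ (2 ^ (j + 1 + r) - (r + 1))) = 2 ^ (2 ^ (j + 1) * D) := by
      intro hF
      have hm : j + (r + 1) = j + 1 + r := by ring
      have h2 := law (j := j) (r := r + 1) (by omega) hs hE (by rw [hm]; exact hF)
      rw [hm] at h2
      have h3 := law (j := j + 1) (r := r) hr hs hED hF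
      have hbd := Pool.Agent.Y875.FP.exp_bound (j := j) (r := r + 1) (by omega)
      rw [hm] at hbd
      have h4 := congrArg (fun y => y ^ 2) h2
      beta_reduce at h4
      rw [← pow_mul, ← pow_succ, ← pow_mul,
        show 2 ^ (j + 1 + r) - (r + 1 + 1) + 1 = 2 ^ (j + 1 + r) - (r + 1) by omega,
        show 2 ^ j * E * 2 = 2 ^ (j + 1) * E by ring] at h4
      have h5 : (2 : ZMod (Nat.fermatNumber (j + 1 + r))) ^ (2 ^ (j + 1) * s) - 1 =
          (2 ^ (2 ^ j * s) - 1) * (2 ^ (2 ^ j * s) + 1) := by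
        have h6 : (2 : ZMod (Nat.fermatNumber (j + 1 + r))) ^ (2 ^ (j + 1) * s) =
            (2 ^ (2 ^ j * s)) ^ 2 := by
          rw [← pow_mul]
          congr 1
          ring
        rw [h6]
        ring
      rw [h5, mul_pow, h4, mul_add,
        pow_add (2 : ZMod (Nat.fermatNumber (j + 1 + r))) (2 ^ (j + 1) * E)] at h3
      have hu : IsUnit ((2 : ZMod (Nat.fermatNumber (j + 1 + r))) ^ (2 ^ (j + 1) * E)) := by
        apply IsUnit.pow
        have h7 : IsUnit ((2 : ZMod (Nat.fermatNumber (j + 1 + r))) ^ (2 ^ (j + 1 + r))) := by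
          rw [two_pow]
          exact isUnit_one.neg
        exact (isUnit_pow_iff (by positivity)).mp h7
      have h8 := hu.mul_left_cancel h3
      push_cast
      exact h8
    exact ⟨h1, fun hd => crit (j := j + 1) (by omega) hd h1⟩

end Pool.Agent.Results.MP_37e5fa_nt.AllExponents
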