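import Pool.Agent.Y875.FP.AnyF

/-!
# Power residue symbols of every integer modulo a Fermat prime, at the full level

Let `m = j + r`, `r ≥ 2`, `m ≥ 3`.  The `2^(r+1)`-th power residue symbol of an odd prime `q`
modulo a Fermat prime `F_m` is computed in characteristic `q`, from a root `z` of
`z^(2^r) = -1`.  For `j = 0` the level is `2^(m+1)`, the order of `2` modulo `F_m`, and nothing is
assumed on the size of `q`.  Conversely a single nontrivial symbol forces `F_m` to be prime, and for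
every integer `b` the symbols of its prime factors give the order which `b` must have.
-/

set_option autoImplicit false

namespace Pool.Agent.Results.MP_37e5fa_nt.EveryPrimeFullLevel

open Finset

/-- `c` is an index of the odd prime `q` with respect to the root `z` of `z^(2^r) = -1` in a field
of characteristic `q`:
`∏_t (1 - 2^(2^j) z^(1/t))^(q - 1 - [q t / 2^(r+1)]) * z^(q c) = 1`,
where `t` runs through the units modulo `2^(r+1)`, `1/t` and `t` being represented by least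
residues. -/
def IsIndexAt (j r q : ℕ) {L : Type} [Field L] (z : L) (c : ℕ) : Prop :=
  (∏ t : (ZMod (2 ^ (r + 1)))ˣ, (1 - 2 ^ (2 ^ j) * z ^ (t⁻¹.val.val)) ^
    (q - 1 - q * t.val.val / 2 ^ (r + 1))) * z ^ (q * c) = 1

/-- `c` is an index of `q` for some choice of the field and of the root. -/
def IsIndex (j r q c : ℕ) : Prop :=
  ∃ (L : Type) (_ : Field L) (_ : CharP L q) (z : L), z ^ (2 ^ r) = -1 ∧ IsIndexAt j r q z c

lemma two_pow (m : ℕ) : (2 : ZMod (Nat.fermatNumber m)) ^ (2 ^ m) = -1 := by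
  have h1 : ((Nat.fermatNumber m : ℕ) : ZMod (Nat.fermatNumber m)) = 0 := ZMod.natCast_self _
  conv at h1 => lhs; arg 1; unfold Nat.fermatNumber
  push_cast at h1
  linear_combination h1

lemma orderOf_z {q r : ℕ} (hq : q.Prime) (hq2 : q ≠ 2) {L : Type} [Field L] [CharP L q] {z : L}
    (hz : z ^ (2 ^ r) = -1) : orderOf z = 2 ^ (r + 1) := by
  have h2L : (2 : L) ≠ 0 := by
    intro h
    have h2 : ((2 : ℕ) : L) = 0 := by exact_mod_cast h
    rw [CharP.cast_eq_zero_iff L q 2] at h2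
    have := Nat.le_of_dvd (by norm_num) h2
    have := hq.two_le
    omega
  apply orderOf_eq_prime_pow
  · rw [hz]
    intro h
    apply h2L
    linear_combination -h
  · rw [pow_succ, pow_mul, hz]
    ring

lemma index_unique {j r q : ℕ} (hq : q.Prime) (hq2 : q ≠ 2) {L : Type} [Field L] [CharP L q]
    {z : L} (hz : z ^ (2 ^ r) = -1) {c : ℕ} (hc : IsIndexAt j r q z c) (c' : ℕ) :
    IsIndexAt j r q z c' ↔ c' ≡ c [MOD 2 ^ (r + 1)] := by
  have hord := orderOf_z hq hq2 hz
  have hz0 : z ≠ 0 := by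
    rintro rfl
    rw [zero_pow (by positivity)] at hz
    exact (neg_ne_zero.mpr one_ne_zero) hz.symm
  have hcop : Nat.Coprime (2 ^ (r + 1)) q :=
    Nat.Coprime.pow_left _ (Nat.coprime_two_left.mpr (hq.odd_of_ne_two hq2))
  have hpow : z ^ (q * c') = z ^ (q * c) ↔ c' ≡ c [MOD 2 ^ (r + 1)] := by
    have hfin : IsOfFinOrder z := by
      rw [← orderOf_pos_iff, hord]
      positivity
    rw [hfin.pow_eq_pow_iff_modEq, hord]
    constructor
    · intro h
      exact Nat.ModEq.cancel_left_of_coprime hcop h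
    · intro h
      exact h.mul_left q
  rw [← hpow]
  unfold IsIndexAt at hc ⊢
  constructor
  · intro h
    have h1 := h.trans hc.symm
    refine mul_left_cancel₀ ?_ h1
    intro h0
    rw [h0, zero_mul] at hc
    exact zero_ne_one hc
  · intro h
    rw [h]
    exact hc

/-- the law for a prime, with any index -/
lemma prime_index {j r q c : ℕ} (hr : 2 ≤ r) (hjr : 3 ≤ j + r) (hq : q.Prime) (hq2 : q ≠ 2)
    (hqF : ¬ q ∣ Nat.fermatNumber (j + r)) (hc : IsIndex j r q c)
    (hF : (Nat.fermatNumber (j + r)).Prime) :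
    (q : ZMod (Nat.fermatNumber (j + r))) ^ (2 ^ (2 ^ (j + r) - (r + 1))) *
      2 ^ (2 ^ j * c) = 1 := by
  obtain ⟨L, _, _, z, hz, hc⟩ := hc
  obtain ⟨c0, _, hc1, hc2, _⟩ := Pool.Agent.Y875.FP.any_fermat hr hjr hq hq2 hqF hz
  have h := (index_unique hq hq2 hz (show IsIndexAt j r q z c0 from hc1) c).mp hc
  have h1 : (2 : ZMod (Nat.fermatNumber (j + r))) ^ (2 ^ j * c) = 2 ^ (2 ^ j * c0) := by
    have h3 : 2 ^ j * c ≡ 2 ^ j * c0 [MOD 2 ^ j * 2 ^ (r + 1)] := h.mul_left' _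
    refine pow_eq_pow_of_modEq h3 ?_
    rw [← pow_add, show j + (r + 1) = j + r + 1 by ring, pow_succ, pow_mul, two_pow]
    ring
  rw [h1]
  exact hc2 hF

/-- the index of the natural number `b`, given the indices of its odd prime factors -/
def ind (c : ℕ → ℕ) (b : ℕ) : ℕ := ∑ q ∈ b.primeFactors.erase 2, b.factorization q * c q

lemma ind_eq (c : ℕ → ℕ) (b : ℕ) :
    ind c b = b.factorization.sum fun q e => e * (if q = 2 then 0 else c q) := by
  unfold ind Finsupp.sum
  rw [Nat.support_factorization]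
  symm
  rw [← Finset.sum_erase (a := 2) (s := b.primeFactors) (by simp)]
  refine Finset.sum_congr rfl fun q hq => ?_
  rw [Finset.mem_erase] at hq
  simp only [if_neg hq.1]

lemma ind_mul (c : ℕ → ℕ) {a b : ℕ} (ha : a ≠ 0) (hb : b ≠ 0) :
    ind c (a * b) = ind c a + ind c b := by
  rw [ind_eq, ind_eq, ind_eq, Nat.factorization_mul ha hb]
  exact Finsupp.sum_add_index' (by simp) (by intros; ring)

lemma ind_prime (c : ℕ → ℕ) {q : ℕ} (hq : q.Prime) (hq2 : q ≠ 2) : ind c q = c q := by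
  rw [ind_eq, Nat.Prime.factorization hq, Finsupp.sum_single_index (by simp)]
  simp [hq2]

lemma ind_two (c : ℕ → ℕ) : ind c 2 = 0 := by
  rw [ind_eq, Nat.Prime.factorization Nat.prime_two, Finsupp.sum_single_index (by simp)]
  simp

/-- the law for natural numbers -/
lemma law {j r b : ℕ} {c : ℕ → ℕ} (hr : 2 ≤ r) (hjr : 3 ≤ j + r) (hb0 : b ≠ 0)
    (hb : ∀ q : ℕ, q.Prime → q ≠ 2 → q ∣ b →
      ¬ q ∣ Nat.fermatNumber (j + r) ∧ IsIndex j r q (c q))
    (hF : (Nat.fermatNumber (j + r)).Prime) :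
    (b : ZMod (Nat.fermatNumber (j + r))) ^ (2 ^ (2 ^ (j + r) - (r + 1))) *
      2 ^ (2 ^ j * ind c b) = 1 := by
  induction b using induction_on_primes with
  | zero => exact absurd rfl hb0
  | one =>
    simp [ind]
  | prime_mul q a hq ih =>
    have ha : a ≠ 0 := by
      rintro rfl
      exact hb0 (by simp)
    have h1 := ih ha (fun p hp hp2 hpa => hb p hp hp2 (hpa.mul_left q))
    have h2 : (q : ZMod (Nat.fermatNumber (j + r))) ^ (2 ^ (2 ^ (j + r) - (r + 1))) *
        2 ^ (2 ^ j * ind c q) = 1 := by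
      by_cases hq2 : q = 2
      · subst hq2
        rw [ind_two, mul_zero, pow_zero, mul_one]
        have hbd2 := Pool.Agent.Y875.FP.exp_bound2 (j := j) (r := r) hr (by omega)
        obtain ⟨d, hd⟩ : 2 ^ (j + r + 1) ∣ 2 ^ (2 ^ (j + r) - (r + 1)) := Nat.pow_dvd_pow 2 hbd2
        rw [hd, pow_mul, pow_succ, pow_mul, Nat.cast_ofNat, two_pow]
        simp
      · rw [ind_prime c hq hq2]
        obtain ⟨h3, h4⟩ := hb q hq hq2 (dvd_mul_right q a)
        exact prime_index hr hjr hq hq2 h3 h4 hF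
    rw [ind_mul c hq.ne_zero ha, mul_add,
      pow_add (2 : ZMod (Nat.fermatNumber (j + r))) (2 ^ j * ind c q), Nat.cast_mul, mul_pow]
    linear_combination h2 * ((a : ZMod (Nat.fermatNumber (j + r))) ^
      (2 ^ (2 ^ (j + r) - (r + 1))) * 2 ^ (2 ^ j * ind c a)) + h1

/-- an element of order `2^(2^m - v)` forces `F_m` to be prime -/
lemma prime_of_order {m v : ℕ} (hm : 2 ≤ m) (hv : v ≤ m) (b : ℕ)
    (h : orderOf (b : ZMod (Nat.fermatNumber m)) = 2 ^ (2 ^ m - v)) :
    (Nat.fermatNumber m).Prime := by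
  have hmm : m + 1 ≤ 2 ^ m := Nat.lt_two_pow_self
  set N := Nat.fermatNumber m with hN
  have hN3 : 3 ≤ N := Nat.three_le_fermatNumber m
  obtain ⟨e, he⟩ : ∃ e, 2 ^ m - v = e + 1 := ⟨2 ^ m - v - 1, by omega⟩
  rw [he] at h
  -- a prime factor modulo which `b^(2^e) = -1`
  have h1 : (b : ZMod N) ^ (2 ^ e) ≠ 1 := by
    intro h1
    have h2 := orderOf_dvd_of_pow_eq_one h1
    rw [h] at h2
    have h3 := Nat.le_of_dvd (by positivity) h2
    rw [pow_succ] at h3
    have : 0 < 2 ^ e := by positivity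
    omega
  have h2 : (b : ZMod N) ^ (2 ^ (e + 1)) = 1 := by rw [← h]; exact pow_orderOf_eq_one _
  have hb0 : b ≠ 0 := by
    rintro rfl
    rw [Nat.cast_zero, zero_pow (by positivity)] at h2
    have : Nontrivial (ZMod N) := by
      have : Fact (1 < N) := ⟨by omega⟩
      infer_instance
    exact zero_ne_one h2
  have hX1 : 1 ≤ b ^ (2 ^ e) := Nat.one_le_pow _ _ (Nat.pos_of_ne_zero hb0)
  have h3 : N ∣ (b ^ (2 ^ e) - 1) * (b ^ (2 ^ e) + 1) := by
    rw [← ZMod.natCast_eq_zero_iff]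
    push_cast [Nat.cast_sub hX1]
    rw [pow_succ, pow_mul] at h2
    linear_combination h2
  have h4 : ¬ N ∣ b ^ (2 ^ e) - 1 := by
    rw [← ZMod.natCast_eq_zero_iff]
    push_cast [Nat.cast_sub hX1]
    intro h
    exact h1 (sub_eq_zero.mp h)
  obtain ⟨p, hp, hpN, hpX⟩ : ∃ p : ℕ, p.Prime ∧ p ∣ N ∧ p ∣ b ^ (2 ^ e) + 1 := by
    by_contra hcon
    push Not at hcon
    apply h4
    refine Nat.Coprime.dvd_of_dvd_mul_right ?_ h3
    rw [Nat.coprime_iff_gcd_eq_one]
    by_contra hg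
    obtain ⟨p, hp, hpg⟩ := Nat.exists_prime_and_dvd hg
    exact hcon p hp (hpg.trans (Nat.gcd_dvd_left _ _)) (hpg.trans (Nat.gcd_dvd_right _ _))
  have hfp : Fact p.Prime := ⟨hp⟩
  have hpodd : p ≠ 2 := by
    rintro rfl
    exact (Nat.not_even_iff_odd.mpr (Nat.odd_fermatNumber m)) (even_iff_two_dvd.mpr hpN)
  have h5 : (b : ZMod p) ^ (2 ^ e) = -1 := by
    have h6 : ((b ^ (2 ^ e) + 1 : ℕ) : ZMod p) = 0 := by rwa [ZMod.natCast_eq_zero_iff]
    push_cast at h6
    linear_combination h6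
  have hord : orderOf (b : ZMod p) = 2 ^ (e + 1) := by
    apply orderOf_eq_prime_pow
    · rw [h5]
      have : Fact (2 < p) := ⟨lt_of_le_of_ne hp.two_le (Ne.symm hpodd)⟩
      exact ZMod.neg_one_ne_one
    · rw [pow_succ, pow_mul, h5]
      ring
  have hb0' : (b : ZMod p) ≠ 0 := by
    intro h5'
    rw [h5', zero_pow (by positivity)] at h5
    exact (neg_ne_zero.mpr one_ne_zero) h5.symm
  have hdvd2 : orderOf (b : ZMod p) ∣ p - 1 := ZMod.orderOf_dvd_card_sub_one hb0'
  rw [hord] at hdvd2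
  have hle := Nat.le_of_dvd (by have := hp.two_le; omega) hdvd2
  obtain ⟨c, hc⟩ := hpN
  by_contra hnp
  have hc1 : c ≠ 1 := by
    rintro rfl
    rw [mul_one] at hc
    exact hnp (hc ▸ hp)
  have hc0 : c ≠ 0 := by
    rintro rfl
    omega
  obtain ⟨l, hl, hlc⟩ := Nat.exists_prime_and_dvd hc1
  obtain ⟨d, hd⟩ := Nat.fermat_primeFactors_one_lt m l (by omega) hl
    (hlc.trans (by rw [← hN, hc]; exact dvd_mul_left _ _))
  have hd0 : d ≠ 0 := by
    rintro rfl
    rw [zero_mul, zero_add] at hd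
    exact hl.one_lt.ne' hd
  have hcl : 2 ^ (m + 2) + 1 ≤ c := by
    have h6 := Nat.le_of_dvd (Nat.pos_of_ne_zero hc0) hlc
    have h7 : 2 ^ (m + 2) ≤ d * 2 ^ (m + 2) := Nat.le_mul_of_pos_left _ (Nat.pos_of_ne_zero hd0)
    omega
  have hple : 2 ^ (e + 1) + 1 ≤ p := by have := hp.two_le; omega
  have h8 : (2 ^ (e + 1) + 1) * (2 ^ (m + 2) + 1) ≤ N := by
    rw [hc]; exact Nat.mul_le_mul hple hcl
  have h9 : 2 ^ (2 ^ m) ≤ 2 ^ (e + 1) * 2 ^ (m + 2) := by
    rw [← pow_add]
    exact Nat.pow_le_pow_right (by norm_num) (by omega)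
  have h10 : N = 2 ^ (2 ^ m) + 1 := rfl
  have h11 : 0 < 2 ^ (e + 1) := by positivity
  nlinarith

/-- the order, from the congruence -/
lemma order_of_law {j r y : ℕ} (hr : 2 ≤ r) (hv : ¬ 2 ^ (r + 1) ∣ y)
    {x : ZMod (Nat.fermatNumber (j + r))}
    (h : x ^ (2 ^ (2 ^ (j + r) - (r + 1))) * 2 ^ (2 ^ j * y) = 1) :
    orderOf x = 2 ^ (2 ^ (j + r) - padicValNat 2 y) ∧ padicValNat 2 y ≤ r := by
  have hN3 := Nat.three_le_fermatNumber (j + r)
  have hy0 : y ≠ 0 := by
    rintro rfl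
    exact hv (dvd_zero _)
  obtain ⟨v, w, hw, rfl⟩ := Nat.exists_eq_two_pow_mul_odd hy0
  have hval : padicValNat 2 (2 ^ v * w) = v := by
    rw [padicValNat.mul (by positivity) (by rintro rfl; simp at hw), padicValNat.prime_pow,
      padicValNat.eq_zero_of_not_dvd (fun h => (Nat.not_even_iff_odd.mpr hw)
        (even_iff_two_dvd.mpr h)), add_zero]
  rw [hval]
  have hvr : v ≤ r := by
    by_contra hvr
    exact hv ((Nat.pow_dvd_pow 2 (by omega)).trans (dvd_mul_right _ _))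
  refine ⟨?_, hvr⟩
  have hbd := Pool.Agent.Y875.FP.exp_bound (j := j) hr
  have h3 : (2 : ZMod (Nat.fermatNumber (j + r))) ^ (2 ^ j * (2 ^ v * w) * 2 ^ (r - v)) = -1 := by
    have h4 : 2 ^ j * (2 ^ v * w) * 2 ^ (r - v) = 2 ^ (j + r) * w := by
      have h5 : 2 ^ (j + r) = 2 ^ j * (2 ^ v * 2 ^ (r - v)) := by
        rw [← pow_add, ← pow_add]
        congr 1
        omega
      rw [h5]
      ring
    rw [h4, pow_mul, two_pow, hw.neg_one_pow]
  have h4 : x ^ (2 ^ (2 ^ (j + r) - (r + 1)) * 2 ^ (r - v)) = -1 := by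
    have h5 := congrArg (· ^ (2 ^ (r - v))) h
    simp only [mul_pow, one_pow] at h5
    rw [← pow_mul, ← pow_mul, h3] at h5
    linear_combination -h5
  rw [← pow_add] at h4
  have e : 2 ^ (j + r) - v = (2 ^ (j + r) - (r + 1) + (r - v)) + 1 := by omega
  rw [e]
  apply orderOf_eq_prime_pow
  · rw [h4]
    have : Fact (2 < Nat.fermatNumber (j + r)) := ⟨by omega⟩
    exact ZMod.neg_one_ne_one
  · rw [pow_succ, pow_mul, h4]
    ring

lemma prime_of_order' {m v : ℕ} (hm : 2 ≤ m) (hv : v ≤ m) (x : ZMod (Nat.fermatNumber m))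
    (h : orderOf x = 2 ^ (2 ^ m - v)) : (Nat.fermatNumber m).Prime := by
  have : NeZero (Nat.fermatNumber m) := ⟨by have := Nat.three_le_fermatNumber m; omega⟩
  apply prime_of_order hm hv x.val
  rw [ZMod.natCast_zmod_val]
  exact h

theorem result (j r : ℕ) (hr : 2 ≤ r) (hjr : 3 ≤ j + r) :
    -- existence and uniqueness of the index of an odd prime, for every choice of the root
    (∀ q : ℕ, q.Prime → q ≠ 2 → ¬ q ∣ Nat.fermatNumber (j + r) →
      ∀ (L : Type) [Field L] [CharP L q] (z : L), z ^ (2 ^ r) = -1 →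
        ∃ c < 2 ^ (r + 1), ∀ c' : ℕ, IsIndexAt j r q z c' ↔ c' ≡ c [MOD 2 ^ (r + 1)]) ∧
    -- the power residue law and the criteria, for every integer
    ∀ (b : ℤ) (c : ℕ → ℕ), b ≠ 0 →
      (∀ q : ℕ, q.Prime → q ≠ 2 → (q : ℤ) ∣ b →
        ¬ q ∣ Nat.fermatNumber (j + r) ∧ IsIndex j r q (c q)) →
      ((Nat.fermatNumber (j + r)).Prime →
        (b : ZMod (Nat.fermatNumber (j + r))) ^ ((Nat.fermatNumber (j + r) - 1) / 2 ^ (r + 1)) *
          2 ^ (2 ^ j * ind c b.natAbs) = 1) ∧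
      (¬ 2 ^ (r + 1) ∣ ind c b.natAbs →
        ((Nat.fermatNumber (j + r)).Prime ↔
          (b : ZMod (Nat.fermatNumber (j + r))) ^ ((Nat.fermatNumber (j + r) - 1) / 2 ^ (r + 1)) *
            2 ^ (2 ^ j * ind c b.natAbs) = 1) ∧
        ((Nat.fermatNumber (j + r)).Prime ↔
          orderOf (b : ZMod (Nat.fermatNumber (j + r))) =
            2 ^ (2 ^ (j + r) - padicValNat 2 (ind c b.natAbs)))) := by
  have hbd := Pool.Agent.Y875.FP.exp_bound (j := j) hr
  have hexp : (Nat.fermatNumber (j + r) - 1) / 2 ^ (r + 1) = 2 ^ (2 ^ (j + r) - (r + 1)) := by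
    unfold Nat.fermatNumber
    rw [Nat.add_sub_cancel, Nat.pow_div (by omega) (by norm_num)]
  rw [hexp]
  constructor
  · intro q hq hq2 hqF L _ _ z hz
    obtain ⟨c, hc1, hc2, _⟩ := Pool.Agent.Y875.FP.any_fermat hr hjr hq hq2 hqF hz
    exact ⟨c, hc1, index_unique hq hq2 hz hc2⟩
  · intro b c hb0 hb
    have hlaw : (Nat.fermatNumber (j + r)).Prime →
        (b : ZMod (Nat.fermatNumber (j + r))) ^ (2 ^ (2 ^ (j + r) - (r + 1))) *
          2 ^ (2 ^ j * ind c b.natAbs) = 1 := by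
      intro hF
      have h1 := law hr hjr (Int.natAbs_ne_zero.mpr hb0)
        (fun q hq hq2 hqb => hb q hq hq2 (Int.natCast_dvd.mpr hqb)) hF
      have h2 : (b : ZMod (Nat.fermatNumber (j + r))) ^ (2 ^ (2 ^ (j + r) - (r + 1))) =
          (b.natAbs : ZMod (Nat.fermatNumber (j + r))) ^ (2 ^ (2 ^ (j + r) - (r + 1))) := by
        have he : Even (2 ^ (2 ^ (j + r) - (r + 1))) := Even.pow_of_ne_zero even_two (by omega)
        rcases Int.natAbs_eq b with h | h
        · conv_lhs => rw [h]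
          rw [Int.cast_natCast]
        · conv_lhs => rw [h]
          rw [Int.cast_neg, he.neg_pow, Int.cast_natCast]
      rw [h2]
      exact h1
    refine ⟨hlaw, fun hv => ?_⟩
    refine ⟨⟨hlaw, fun h => ?_⟩, ⟨fun hF => (order_of_law hr hv (hlaw hF)).1, fun h => ?_⟩⟩
    · obtain ⟨h1, h2⟩ := order_of_law hr hv h
      exact prime_of_order' (by omega) (by omega) _ h1
    · have hvr : padicValNat 2 (ind c b.natAbs) ≤ r := by
        have hy0 : ind c b.natAbs ≠ 0 := by
          intro h0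
          rw [h0] at hv
          exact hv (dvd_zero _)
        by_contra hvr
        apply hv
        exact (Nat.pow_dvd_pow 2 (by omega)).trans pow_padicValNat_dvd
      exact prime_of_order' (by omega) (by omega) _ h

end Pool.Agent.Results.MP_37e5fa_nt.EveryPrimeFullLevel
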