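import Mathlib
import Pool.Agent.X173.FerE

set_option autoImplicit false

/-!
# Metric theorems for the Fermat numbers: finitely many primes, and the exact tail probability

For real `x > 1`, `β > 0` and `m ≥ 0` let `W x β m` be the `2 ^ (m + 1)`-rough part (the product, with
multiplicity, of the prime factors larger than `2 ^ (m + 1)`) of `⌊β x ^ (2 ^ m)⌋ + 1`.  Every prime
factor of `F_m = 2 ^ (2 ^ m) + 1` is larger than `2 ^ (m + 1)`, so `W 2 1 m = F_m`; more generally
`W b 1 m = b ^ (2 ^ m) + 1` for every even `b ≥ 2`.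

We prove:
* for every base `x > 1` and almost every amplitude `β > 0`, and for every positive `C ^ 1` function
  `A` and almost every base `x > 1` with the amplitude `A x`, only finitely many of the numbers
  `W x β m` are prime;
* for every base `x > 1` and all `s < t` the measure of the set of the `u` in `(s, t]` for which
  `W x (e ^ u) m` is prime is asymptotic to `(t - s) (e ^ γ log 2 / log x) (m + 1) / 2 ^ m`, and the
  measure of the set of the `u` in `(s, t]` for which `W x (e ^ u) m` is prime for at least one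
  `m ≥ M` is asymptotic to `(t - s) (e ^ γ log 2 / log x) (M + 2) / 2 ^ (M - 1)`; for the base `x = 2`
  the constant is `e ^ γ`;
* for every base `x > 1` and all `β > 0` outside a set of the first category infinitely many of the
  numbers `W x β m` are prime.
-/

namespace Pool.Agent.Results.MP_37e5fa_nt.MetricFermat

open Filter Topology MeasureTheory

/-- The product, with multiplicity, of the prime factors of `n` that are larger than `k`. -/
def roughPart (k n : ℕ) : ℕ := (n.primeFactorsList.filter (fun r => k < r)).prod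

/-- The `2 ^ (m + 1)`-rough part of `⌊β x ^ (2 ^ m)⌋ + 1`. -/
noncomputable def W (x β : ℝ) (m : ℕ) : ℕ := roughPart (2 ^ (m + 1)) (⌊β * x ^ (2 ^ m)⌋₊ + 1)

theorem result :
    -- the Fermat numbers and the numbers `b ^ (2 ^ m) + 1` with `b` even
    (∀ m : ℕ, W 2 1 m = Nat.fermatNumber m) ∧
    (∀ b : ℕ, 0 < b → Even b → ∀ m : ℕ, W b 1 m = b ^ (2 ^ m) + 1) ∧
    -- every base, almost every amplitude
    (∀ x : ℝ, 1 < x → ∀ᵐ β : ℝ, 0 < β → {m : ℕ | (W x β m).Prime}.Finite) ∧
    -- every positive `C ^ 1` curve, almost every base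
    (∀ A : ℝ → ℝ, ContDiffOn ℝ 1 A (Set.Ioi 1) → (∀ x : ℝ, 1 < x → 0 < A x) →
      ∀ᵐ x : ℝ, 1 < x → {m : ℕ | (W x (A x) m).Prime}.Finite) ∧
    -- the probability at the level `m`
    (∀ x s t : ℝ, 1 < x → s < t → Tendsto (fun m : ℕ =>
        volume.real {u : ℝ | u ∈ Set.Ioc s t ∧ (W x (Real.exp u) m).Prime} * (2 ^ m / (m + 1))) atTop
      (𝓝 ((t - s) * Real.exp Real.eulerMascheroniConstant * Real.log 2 / Real.log x))) ∧
    -- the probability of a prime at some level `m ≥ M`
    (∀ x s t : ℝ, 1 < x → s < t → Tendsto (fun M : ℕ =>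
        volume.real {u : ℝ | u ∈ Set.Ioc s t ∧ ∃ m ≥ M, (W x (Real.exp u) m).Prime} *
          (2 ^ M / (M + 2))) atTop
      (𝓝 (2 * (t - s) * Real.exp Real.eulerMascheroniConstant * Real.log 2 / Real.log x))) ∧
    -- the first category
    (∀ x : ℝ, 1 < x → ∀ᶠ β : ℝ in residual ℝ, 0 < β → {m : ℕ | (W x β m).Prime}.Infinite) := by
  refine ⟨fun m => ?_, fun b hb hb2 m => Pool.Agent.X173.Fer.W_base hb2 hb m,
    fun x hx => Pool.Agent.X173.Fer.fin_amp hx, fun A hA hpos => Pool.Agent.X173.Fer.fin_curve hA hpos,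
    fun x s t hx hst => Pool.Agent.X173.Fer.level hx hst,
    fun x s t hx hst => Pool.Agent.X173.Fer.levels hx hst,
    fun x hx => Pool.Agent.X173.Fer.resid hx⟩
  have h := Pool.Agent.X173.Fer.W_base (b := 2) even_two two_pos m
  unfold Nat.fermatNumber
  rw [← h]
  norm_cast

end Pool.Agent.Results.MP_37e5fa_nt.MetricFermat
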