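import Pool.Agent.Y875.FP.Conv

/-!
# Products of prime factors of smaller Fermat numbers as bases in Pepin's test

Let `m = j + r`, `r ≥ 2`, and let `b > 1` be a number all of whose prime factors divide one of the
Fermat numbers `F_0, …, F_j`.  If `F_m` is prime, the `2^(r+1)`-th power residue symbol of `b`
modulo `F_m` is given by `y = (b^(2^(r-1)) - 1) / 2^(r+1)` and an explicit sign.  If
`v = v_2(b^2 - 1) - 3 < r`, then `F_m` is prime if and only if this congruence holds, and also if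
and only if `b` has order `2^(2^m - v)` modulo `F_m`.
-/

set_option autoImplicit false

namespace Pool.Agent.Results.MP_37e5fa_nt.SmallerFermatFactors

open Finset

/-- The number of prime factors of `b`, counted with multiplicity, which are `3` or `5` and do not
divide `F_j`. -/
def sgnExp (j b : ℕ) : ℕ :=
  ∑ q ∈ ({3, 5} : Finset ℕ) with ¬ q ∣ Nat.fermatNumber j, b.factorization q

lemma two_pow (m : ℕ) : (2 : ZMod (Nat.fermatNumber m)) ^ (2 ^ m) = -1 := by
  have h1 : ((Nat.fermatNumber m : ℕ) : ZMod (Nat.fermatNumber m)) = 0 := ZMod.natCast_self _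
  conv at h1 => lhs; arg 1; unfold Nat.fermatNumber
  push_cast at h1
  linear_combination h1

lemma lift_pow {b r y : ℕ} (h : b ^ (2 ^ (r - 1)) = 1 + 2 ^ (r + 1) * y) (hr : 2 ≤ r) (k : ℕ) :
    ∃ c : ℕ, b ^ (2 ^ (r + k)) = 1 + 2 ^ (r + k + 2) * (y + 2 ^ r * y ^ 2 + 2 ^ (r + 1) * c) := by
  induction k with
  | zero =>
    refine ⟨0, ?_⟩
    obtain ⟨s, rfl⟩ : ∃ s, r = s + 1 := ⟨r - 1, by omega⟩
    rw [Nat.add_sub_cancel] at h
    rw [Nat.add_zero, pow_succ 2 s, pow_mul, h]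
    ring
  | succ k ih =>
    obtain ⟨c, hc⟩ := ih
    refine ⟨c + 2 ^ k * (y + 2 ^ r * y ^ 2 + 2 ^ (r + 1) * c) ^ 2, ?_⟩
    rw [← Nat.add_assoc, pow_succ 2 (r + k), pow_mul, hc]
    ring

lemma parity {b r y : ℕ} (hr : 2 ≤ r) (h : b ^ (2 ^ (r - 1)) = 1 + 2 ^ (r + 1) * y) :
    y % 2 = (b ^ 2 / 8) % 2 := by
  obtain ⟨l, rfl⟩ : ∃ l, r = l + 2 := ⟨r - 2, by omega⟩
  have e4 : l + 2 - 1 = l + 1 := by omega
  rw [e4] at h
  have hbo : Odd b := by
    rw [← Nat.not_even_iff_odd]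
    intro he
    have h1 : Even (b ^ (2 ^ (l + 1))) := he.pow_of_ne_zero (by positivity)
    rw [h, Nat.even_iff] at h1
    have h2 : 1 + 2 ^ (l + 2 + 1) * y = 1 + 2 * (2 ^ (l + 2) * y) := by ring
    omega
  clear hr e4
  obtain ⟨t, ht⟩ : ∃ t, b ^ 2 = 1 + 8 * t := by
    obtain ⟨t, ht⟩ := Pool.Agent.Y875.FP.odd_pow_eq hbo 0
    exact ⟨t, by simpa using ht⟩
  have h8 : b ^ 2 / 8 = t := by omega
  rw [h8]
  have key : ∀ l : ℕ, ∃ c : ℕ, b ^ (2 ^ (l + 1)) = 1 + 2 ^ (l + 3) * (t + 2 * c) := by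
    intro l
    induction l with
    | zero => exact ⟨0, by simpa using ht⟩
    | succ l ih =>
      obtain ⟨c, hc⟩ := ih
      refine ⟨c + 2 ^ (l + 1) * (t + 2 * c) ^ 2, ?_⟩
      rw [pow_succ 2 (l + 1), pow_mul, hc]
      ring
  obtain ⟨c, hc⟩ := key l
  rw [h] at hc
  have h2 : y = t + 2 * c :=
    Nat.eq_of_mul_eq_mul_left (show 0 < 2 ^ (l + 3) by positivity) (by
      have : l + 2 + 1 = l + 3 := by ring
      rw [this] at hc
      omega)
  omega

/-- the law for a prime base -/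
lemma prime_base {j r i q : ℕ} (hr : 2 ≤ r) (hi : i ≤ j) (hF : (Nat.fermatNumber (j + r)).Prime)
    (hq : q.Prime) (hqi : q ∣ Nat.fermatNumber i) :
    ∃ y : ℕ, q ^ (2 ^ (r - 1)) = 1 + 2 ^ (r + 1) * y ∧
      (q : ZMod (Nat.fermatNumber (j + r))) ^ (2 ^ (2 ^ (j + r) - (r + 1))) *
        (2 : ZMod (Nat.fermatNumber (j + r))) ^ (2 ^ j * y) = (-1) ^ (sgnExp j q) := by
  have hbd := Pool.Agent.Y875.FP.exp_bound (j := j) hr
  have hbase : ∀ p : ℕ, p.Prime → p ∣ q → p ∣ Nat.fermatNumber i := fun p hp hpq => by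
    rw [(Nat.prime_dvd_prime_iff_eq hp hq).mp hpq]
    exact hqi
  have hcop : i ≠ j → ¬ q ∣ Nat.fermatNumber j := fun hij hqj => by
    have h1 := Nat.coprime_fermatNumber_fermatNumber hij
    have h2 := Nat.dvd_gcd hqi hqj
    rw [h1] at h2
    exact hq.one_lt.ne' (Nat.dvd_one.mp h2)
  rcases Nat.eq_or_lt_of_le hi with rfl | hlt
  · obtain ⟨y, hy1, hy2⟩ := Pool.Agent.Y875.FP.fermat_law hr hF hbase hq.ne_zero
    refine ⟨y, hy1, ?_⟩
    have h0 : sgnExp i q = 0 := by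
      unfold sgnExp
      refine Finset.sum_eq_zero fun p hp => ?_
      rw [Finset.mem_filter] at hp
      rw [Nat.Prime.factorization hq, Finsupp.single_apply_eq_zero]
      intro h
      exact absurd (h ▸ hqi) hp.2
    rw [h0, pow_zero]
    exact hy2
  · -- `i < j`
    have hqo : Odd q := by
      rw [← Nat.not_even_iff_odd]
      intro hev
      exact (Nat.not_even_iff_odd.mpr (Nat.odd_fermatNumber i))
        (even_iff_two_dvd.mpr ((even_iff_two_dvd.mp hev).trans hqi))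
    obtain ⟨y, hy⟩ : ∃ y : ℕ, q ^ (2 ^ (r - 1)) = 1 + 2 ^ (r + 1) * y := by
      obtain ⟨l, rfl⟩ : ∃ l, r = l + 2 := ⟨r - 2, by omega⟩
      exact Pool.Agent.Y875.FP.odd_pow_eq hqo l
    refine ⟨y, hy, ?_⟩
    obtain ⟨k, rfl⟩ : ∃ k, j = i + k + 1 := ⟨j - i - 1, by omega⟩
    obtain ⟨c, hc⟩ := lift_pow hy hr k
    have hm : i + k + 1 + r = i + (r + k + 1) := by ring
    have hF' : (Nat.fermatNumber (i + (r + k + 1))).Prime := by rw [← hm]; exact hF
    obtain ⟨y', hy1, hy2⟩ := Pool.Agent.Y875.FP.fermat_law (r := r + k + 1) (by omega) hF' hbase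
      hq.ne_zero
    rw [Nat.add_sub_cancel, hc] at hy1
    have hyy : y' = y + 2 ^ r * y ^ 2 + 2 ^ (r + 1) * c := by
      have h1 : r + k + 1 + 1 = r + k + 2 := by ring
      rw [h1] at hy1
      have h2 := Nat.add_left_cancel hy1
      exact (Nat.eq_of_mul_eq_mul_left (by positivity) h2).symm
    rw [← hm] at hy2
    have h2 := congrArg (· ^ (2 ^ (k + 1))) hy2
    simp only [mul_pow, one_pow] at h2
    rw [← pow_mul, ← pow_mul, ← pow_add] at h2
    have e1 : 2 ^ (i + k + 1 + r) - (r + k + 1 + 1) + (k + 1) =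
        2 ^ (i + k + 1 + r) - (r + 1) := by
      have h3 : r + k + 1 + 1 ≤ 2 ^ (i + k + 1 + r) := by
        have := Pool.Agent.Y875.FP.exp_bound (j := i) (r := r + k + 1) (by omega)
        rw [← hm] at this
        omega
      omega
    have e2 : 2 ^ i * y' * 2 ^ (k + 1) =
        2 ^ (i + k + 1) * y + 2 ^ (i + k + 1 + r) * (y ^ 2 + 2 * c) := by
      rw [hyy]; ring
    rw [e1, e2, pow_add (2 : ZMod (Nat.fermatNumber (i + k + 1 + r))) (2 ^ (i + k + 1) * y),
      pow_mul (2 : ZMod (Nat.fermatNumber (i + k + 1 + r))) (2 ^ (i + k + 1 + r)),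
      two_pow] at h2
    have hpar : (-1 : ZMod (Nat.fermatNumber (i + k + 1 + r))) ^ (y ^ 2 + 2 * c) =
        (-1) ^ (sgnExp (i + k + 1) q) := by
      rw [neg_one_pow_eq_pow_mod_two (n := y ^ 2 + 2 * c),
        neg_one_pow_eq_pow_mod_two (n := sgnExp (i + k + 1) q)]
      congr 1
      have h3 : (y ^ 2 + 2 * c) % 2 = y % 2 := by
        rw [Nat.add_mul_mod_self_left, Nat.pow_mod]
        rcases Nat.mod_two_eq_zero_or_one y with h | h <;> rw [h]
      rw [h3, parity hr hy]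
      unfold sgnExp
      rw [Nat.Prime.factorization hq]
      rcases Nat.lt_or_ge 1 i with hi1 | hi1
      · -- `q ≡ 1 (mod 16)`
        obtain ⟨d, hd⟩ := Nat.fermat_primeFactors_one_lt i q hi1 hq hqi
        obtain ⟨n, rfl⟩ : ∃ n, i = n + 2 := ⟨i - 2, by omega⟩
        have h16 : q = 16 * (d * 2 ^ n) + 1 := by rw [hd]; ring
        have h4 : q ^ 2 / 8 = 2 * (2 * (d * 2 ^ n) + 16 * (d * 2 ^ n) ^ 2) := by
          have h5 : q ^ 2 = 8 * (2 * (2 * (d * 2 ^ n) + 16 * (d * 2 ^ n) ^ 2)) + 1 := by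
            rw [h16]; ring
          omega
        rw [h4, Nat.mul_mod_right]
        have hz : ∑ x ∈ ({3, 5} : Finset ℕ) with ¬ x ∣ Nat.fermatNumber (n + 2 + k + 1),
            (Finsupp.single q 1 : ℕ →₀ ℕ) x = 0 := by
          refine Finset.sum_eq_zero fun p hp => ?_
          rw [Finset.mem_filter, Finset.mem_insert, Finset.mem_singleton] at hp
          rw [Finsupp.single_apply_eq_zero]
          intro h
          have : q = 3 ∨ q = 5 := by rw [← h]; exact hp.1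
          omega
        rw [hz]
      · have hq35 : q = 3 ∨ q = 5 := by
          rcases Nat.eq_or_lt_of_le hi1 with rfl | hi0
          · right
            rw [Nat.fermatNumber_one] at hqi
            exact (Nat.prime_dvd_prime_iff_eq hq Nat.prime_five).mp hqi
          · left
            have : i = 0 := by omega
            subst this
            rw [Nat.fermatNumber_zero] at hqi
            exact (Nat.prime_dvd_prime_iff_eq hq Nat.prime_three).mp hqi
        have hnd := hcop (by omega)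
        have hsum : ∑ x ∈ ({3, 5} : Finset ℕ) with ¬ x ∣ Nat.fermatNumber (i + k + 1),
            (Finsupp.single q 1 : ℕ →₀ ℕ) x = 1 := by
          rw [Finset.sum_eq_single q]
          · simp
          · intro p _ hpq
            rw [Finsupp.single_apply_eq_zero]
            intro h
            exact absurd h hpq
          · intro h
            exfalso
            apply h
            rw [Finset.mem_filter, Finset.mem_insert, Finset.mem_singleton]
            exact ⟨hq35, hnd⟩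
        rw [hsum]
        rcases hq35 with rfl | rfl <;> norm_num
    have hsq : (-1 : ZMod (Nat.fermatNumber (i + k + 1 + r))) ^ (sgnExp (i + k + 1) q) *
        (-1) ^ (sgnExp (i + k + 1) q) = 1 := by
      rw [← mul_pow]; simp
    rw [hpar] at h2
    linear_combination h2 * (-1) ^ (sgnExp (i + k + 1) q) -
      ((q : ZMod (Nat.fermatNumber (i + k + 1 + r))) ^
        2 ^ (2 ^ (i + k + 1 + r) - (r + 1)) * 2 ^ (2 ^ (i + k + 1) * y)) * hsq

lemma sgnExp_mul {j a b : ℕ} (ha : a ≠ 0) (hb : b ≠ 0) :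
    sgnExp j (a * b) = sgnExp j a + sgnExp j b := by
  unfold sgnExp
  rw [Nat.factorization_mul ha hb, ← Finset.sum_add_distrib]
  rfl

/-- the law -/
lemma law {j r b : ℕ} (hr : 2 ≤ r) (hF : (Nat.fermatNumber (j + r)).Prime) (hb0 : b ≠ 0)
    (hb : ∀ q : ℕ, q.Prime → q ∣ b → ∃ i ≤ j, q ∣ Nat.fermatNumber i) :
    ∃ y : ℕ, b ^ (2 ^ (r - 1)) = 1 + 2 ^ (r + 1) * y ∧
      (b : ZMod (Nat.fermatNumber (j + r))) ^ (2 ^ (2 ^ (j + r) - (r + 1))) *
        (2 : ZMod (Nat.fermatNumber (j + r))) ^ (2 ^ j * y) = (-1) ^ (sgnExp j b) := by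
  induction b using induction_on_primes with
  | zero => exact absurd rfl hb0
  | one =>
    refine ⟨0, by simp, ?_⟩
    simp [sgnExp]
  | prime_mul q a hq ih =>
    have ha : a ≠ 0 := by
      rintro rfl
      exact hb0 (by simp)
    obtain ⟨y1, hy1, hy1'⟩ := ih ha (fun p hp hpa => hb p hp (hpa.mul_left q))
    obtain ⟨i, hi, hqi⟩ := hb q hq (dvd_mul_right q a)
    obtain ⟨y2, hy2, hy2'⟩ := prime_base hr hi hF hq hqi
    refine ⟨y1 + y2 + 2 ^ (r + 1) * (y1 * y2), ?_, ?_⟩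
    · rw [mul_pow, hy1, hy2]
      ring
    · rw [sgnExp_mul hq.ne_zero ha, pow_add (-1 : ZMod (Nat.fermatNumber (j + r))), ← hy1', ← hy2']
      have e : 2 ^ j * (y1 + y2 + 2 ^ (r + 1) * (y1 * y2)) =
          2 ^ j * y1 + 2 ^ j * y2 + 2 ^ (j + r) * (2 * (y1 * y2)) := by ring
      rw [e, pow_add (2 : ZMod (Nat.fermatNumber (j + r))) (2 ^ j * y1 + 2 ^ j * y2),
        pow_add (2 : ZMod (Nat.fermatNumber (j + r))) (2 ^ j * y1),
        pow_mul (2 : ZMod (Nat.fermatNumber (j + r))) (2 ^ (j + r)), two_pow, pow_mul (-1 : ZMod (Nat.fermatNumber (j + r))) 2, neg_one_sq, one_pow,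
        Nat.cast_mul, mul_pow]
      ring

/-- an element of order `2^(2^m - v)` forces `F_m` to be prime -/
lemma prime_of_order {m v : ℕ} (hm : 2 ≤ m) (hv : v ≤ m) (b : ℕ)
    (h : orderOf (b : ZMod (Nat.fermatNumber m)) = 2 ^ (2 ^ m - v)) :
    (Nat.fermatNumber m).Prime := by
  have hmm : m + 1 ≤ 2 ^ m := Nat.lt_two_pow_self
  set N := Nat.fermatNumber m with hN
  have hN3 : 3 ≤ N := Nat.three_le_fermatNumber m
  obtain ⟨e, he⟩ : ∃ e, 2 ^ m - v = e + 1 := ⟨2 ^ m - v - 1, by omega⟩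
  rw [he] at h
  -- a prime factor modulo which `b^(2^e) = -1`
  have h1 : (b : ZMod N) ^ (2 ^ e) ≠ 1 := by
    intro h1
    have h2 := orderOf_dvd_of_pow_eq_one h1
    rw [h] at h2
    have h3 := Nat.le_of_dvd (by positivity) h2
    rw [pow_succ] at h3
    have : 0 < 2 ^ e := by positivity
    omega
  have h2 : (b : ZMod N) ^ (2 ^ (e + 1)) = 1 := by rw [← h]; exact pow_orderOf_eq_one _
  have hb0 : b ≠ 0 := by
    rintro rfl
    rw [Nat.cast_zero, zero_pow (by positivity)] at h2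
    have : Nontrivial (ZMod N) := by
      have : Fact (1 < N) := ⟨by omega⟩
      infer_instance
    exact zero_ne_one h2
  have hX1 : 1 ≤ b ^ (2 ^ e) := Nat.one_le_pow _ _ (Nat.pos_of_ne_zero hb0)
  have h3 : N ∣ (b ^ (2 ^ e) - 1) * (b ^ (2 ^ e) + 1) := by
    rw [← ZMod.natCast_eq_zero_iff]
    push_cast [Nat.cast_sub hX1]
    rw [pow_succ, pow_mul] at h2
    linear_combination h2
  have h4 : ¬ N ∣ b ^ (2 ^ e) - 1 := by
    rw [← ZMod.natCast_eq_zero_iff]
    push_cast [Nat.cast_sub hX1]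
    intro h
    exact h1 (sub_eq_zero.mp h)
  obtain ⟨p, hp, hpN, hpX⟩ : ∃ p : ℕ, p.Prime ∧ p ∣ N ∧ p ∣ b ^ (2 ^ e) + 1 := by
    by_contra hcon
    push Not at hcon
    apply h4
    refine Nat.Coprime.dvd_of_dvd_mul_right ?_ h3
    rw [Nat.coprime_iff_gcd_eq_one]
    by_contra hg
    obtain ⟨p, hp, hpg⟩ := Nat.exists_prime_and_dvd hg
    exact hcon p hp (hpg.trans (Nat.gcd_dvd_left _ _)) (hpg.trans (Nat.gcd_dvd_right _ _))
  have hfp : Fact p.Prime := ⟨hp⟩
  have hpodd : p ≠ 2 := by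
    rintro rfl
    exact (Nat.not_even_iff_odd.mpr (Nat.odd_fermatNumber m)) (even_iff_two_dvd.mpr hpN)
  have h5 : (b : ZMod p) ^ (2 ^ e) = -1 := by
    have h6 : ((b ^ (2 ^ e) + 1 : ℕ) : ZMod p) = 0 := by rwa [ZMod.natCast_eq_zero_iff]
    push_cast at h6
    linear_combination h6
  have hord : orderOf (b : ZMod p) = 2 ^ (e + 1) := by
    apply orderOf_eq_prime_pow
    · rw [h5]
      have : Fact (2 < p) := ⟨lt_of_le_of_ne hp.two_le (Ne.symm hpodd)⟩
      exact ZMod.neg_one_ne_one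
    · rw [pow_succ, pow_mul, h5]
      ring
  have hb0' : (b : ZMod p) ≠ 0 := by
    intro h5'
    rw [h5', zero_pow (by positivity)] at h5
    exact (neg_ne_zero.mpr one_ne_zero) h5.symm
  have hdvd2 : orderOf (b : ZMod p) ∣ p - 1 := ZMod.orderOf_dvd_card_sub_one hb0'
  rw [hord] at hdvd2
  have hle := Nat.le_of_dvd (by have := hp.two_le; omega) hdvd2
  obtain ⟨c, hc⟩ := hpN
  by_contra hnp
  have hc1 : c ≠ 1 := by
    rintro rfl
    rw [mul_one] at hc
    exact hnp (hc ▸ hp)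
  have hc0 : c ≠ 0 := by
    rintro rfl
    omega
  obtain ⟨l, hl, hlc⟩ := Nat.exists_prime_and_dvd hc1
  obtain ⟨d, hd⟩ := Nat.fermat_primeFactors_one_lt m l (by omega) hl
    (hlc.trans (by rw [← hN, hc]; exact dvd_mul_left _ _))
  have hd0 : d ≠ 0 := by
    rintro rfl
    rw [zero_mul, zero_add] at hd
    exact hl.one_lt.ne' hd
  have hcl : 2 ^ (m + 2) + 1 ≤ c := by
    have h6 := Nat.le_of_dvd (Nat.pos_of_ne_zero hc0) hlc
    have h7 : 2 ^ (m + 2) ≤ d * 2 ^ (m + 2) := Nat.le_mul_of_pos_left _ (Nat.pos_of_ne_zero hd0)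
    omega
  have hple : 2 ^ (e + 1) + 1 ≤ p := by have := hp.two_le; omega
  have h8 : (2 ^ (e + 1) + 1) * (2 ^ (m + 2) + 1) ≤ N := by
    rw [hc]; exact Nat.mul_le_mul hple hcl
  have h9 : 2 ^ (2 ^ m) ≤ 2 ^ (e + 1) * 2 ^ (m + 2) := by
    rw [← pow_add]
    exact Nat.pow_le_pow_right (by norm_num) (by omega)
  have h10 : N = 2 ^ (2 ^ m) + 1 := rfl
  have h11 : 0 < 2 ^ (e + 1) := by positivity
  nlinarith

/-- the order, from the congruence -/
lemma order_of_law {j r b y s : ℕ} (hr : 2 ≤ r) (hy0 : y ≠ 0)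
    (hv : padicValNat 2 y < r ∨ padicValNat 2 y = r ∧ Even s)
    (h : (b : ZMod (Nat.fermatNumber (j + r))) ^ (2 ^ (2 ^ (j + r) - (r + 1))) *
        (2 : ZMod (Nat.fermatNumber (j + r))) ^ (2 ^ j * y) = (-1) ^ s) :
    orderOf (b : ZMod (Nat.fermatNumber (j + r))) = 2 ^ (2 ^ (j + r) - padicValNat 2 y) := by
  have hN3 := Nat.three_le_fermatNumber (j + r)
  obtain ⟨v, w, hw, rfl⟩ := Nat.exists_eq_two_pow_mul_odd hy0
  have hval : padicValNat 2 (2 ^ v * w) = v := by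
    rw [padicValNat.mul (by positivity) (by rintro rfl; simp at hw), padicValNat.prime_pow,
      padicValNat.eq_zero_of_not_dvd (fun h => (Nat.not_even_iff_odd.mpr hw)
        (even_iff_two_dvd.mpr h)), add_zero]
  rw [hval] at hv ⊢
  have hvr : v ≤ r := by rcases hv with h | h <;> omega
  have hbd := Pool.Agent.Y875.FP.exp_bound (j := j) hr
  have h3 : (2 : ZMod (Nat.fermatNumber (j + r))) ^ (2 ^ j * (2 ^ v * w) * 2 ^ (r - v)) = -1 := by
    have h4 : 2 ^ j * (2 ^ v * w) * 2 ^ (r - v) = 2 ^ (j + r) * w := by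
      have h5 : 2 ^ (j + r) = 2 ^ j * (2 ^ v * 2 ^ (r - v)) := by
        rw [← pow_add, ← pow_add]
        congr 1
        omega
      rw [h5]
      ring
    rw [h4, pow_mul, two_pow, hw.neg_one_pow]
  have hs : ((-1 : ZMod (Nat.fermatNumber (j + r))) ^ s) ^ (2 ^ (r - v)) = 1 := by
    rw [← pow_mul]
    apply Even.neg_one_pow
    rcases hv with h | h
    · apply Even.mul_left
      exact Even.pow_of_ne_zero even_two (by omega)
    · exact h.2.mul_right _
  have h4 : (b : ZMod (Nat.fermatNumber (j + r))) ^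
      (2 ^ (2 ^ (j + r) - (r + 1)) * 2 ^ (r - v)) = -1 := by
    have h5 := congrArg (· ^ (2 ^ (r - v))) h
    simp only [mul_pow] at h5
    rw [← pow_mul, ← pow_mul, h3, hs] at h5
    linear_combination -h5
  rw [← pow_add] at h4
  have e : 2 ^ (j + r) - v = (2 ^ (j + r) - (r + 1) + (r - v)) + 1 := by omega
  rw [e]
  apply orderOf_eq_prime_pow
  · rw [h4]
    have : Fact (2 < Nat.fermatNumber (j + r)) := ⟨by omega⟩
    exact ZMod.neg_one_ne_one
  · rw [pow_succ, pow_mul, h4]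
    ring

/-- the valuation of `y` -/
lemma val_y {b r y : ℕ} (hr : 2 ≤ r) (hb : Odd b) (hb1 : b ≠ 1)
    (h : b ^ (2 ^ (r - 1)) = 1 + 2 ^ (r + 1) * y) :
    y ≠ 0 ∧ padicValNat 2 y + 3 = padicValNat 2 (b ^ 2 - 1) := by
  have hb3 : 3 ≤ b := by
    rcases hb with ⟨k, rfl⟩
    omega
  have hy0 : y ≠ 0 := by
    rintro rfl
    rw [mul_zero, add_zero] at h
    rcases Nat.pow_eq_one.mp h with h1 | h1
    · omega
    · have : 0 < 2 ^ (r - 1) := by positivity
      omega
  refine ⟨hy0, ?_⟩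
  have h1 := padicValNat.pow_two_sub_pow (x := b) (y := 1) (by omega)
    (by obtain ⟨k, rfl⟩ := hb; exact ⟨k, by omega⟩)
    (fun h => (Nat.not_even_iff_odd.mpr hb) (even_iff_two_dvd.mpr h)) (n := 2 ^ (r - 1))
    (by positivity) (Even.pow_of_ne_zero even_two (by omega))
  rw [one_pow, h, Nat.add_sub_cancel_left, padicValNat.mul (by positivity) hy0,
    padicValNat.prime_pow, padicValNat.prime_pow] at h1
  have h2 : b ^ 2 - 1 = (b + 1) * (b - 1) := by
    have := Nat.sq_sub_sq b 1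
    simpa using this
  rw [h2, padicValNat.mul (by omega) (by omega)]
  omega

theorem result (j r b : ℕ) (hr : 2 ≤ r) (hb1 : b ≠ 1)
    (hb : ∀ q : ℕ, q.Prime → q ∣ b → ∃ i ≤ j, q ∣ Nat.fermatNumber i) :
    ∃ y : ℕ, b ^ (2 ^ (r - 1)) = 1 + 2 ^ (r + 1) * y ∧
      padicValNat 2 y + 3 = padicValNat 2 (b ^ 2 - 1) ∧
      ((Nat.fermatNumber (j + r)).Prime →
        (b : ZMod (Nat.fermatNumber (j + r))) ^ ((Nat.fermatNumber (j + r) - 1) / 2 ^ (r + 1)) *
          2 ^ (2 ^ j * y) = (-1) ^ (sgnExp j b)) ∧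
      (padicValNat 2 y < r ∨ padicValNat 2 y = r ∧ Even (sgnExp j b) →
        ((Nat.fermatNumber (j + r)).Prime ↔
          (b : ZMod (Nat.fermatNumber (j + r))) ^ ((Nat.fermatNumber (j + r) - 1) / 2 ^ (r + 1)) *
            2 ^ (2 ^ j * y) = (-1) ^ (sgnExp j b)) ∧
        ((Nat.fermatNumber (j + r)).Prime ↔
          orderOf (b : ZMod (Nat.fermatNumber (j + r))) =
            2 ^ (2 ^ (j + r) - padicValNat 2 y))) := by
  have hbd := Pool.Agent.Y875.FP.exp_bound (j := j) hr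
  have hexp : (Nat.fermatNumber (j + r) - 1) / 2 ^ (r + 1) = 2 ^ (2 ^ (j + r) - (r + 1)) := by
    unfold Nat.fermatNumber
    rw [Nat.add_sub_cancel, Nat.pow_div (by omega) (by norm_num)]
  have hb0 : b ≠ 0 := by
    rintro rfl
    obtain ⟨i, _, hi⟩ := hb 2 Nat.prime_two (dvd_zero _)
    exact (Nat.not_even_iff_odd.mpr (Nat.odd_fermatNumber i)) (even_iff_two_dvd.mpr hi)
  have hbo : Odd b := by
    rw [← Nat.not_even_iff_odd]
    intro hev
    obtain ⟨i, _, hi⟩ := hb 2 Nat.prime_two (even_iff_two_dvd.mp hev)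
    exact (Nat.not_even_iff_odd.mpr (Nat.odd_fermatNumber i)) (even_iff_two_dvd.mpr hi)
  obtain ⟨y, hy⟩ : ∃ y : ℕ, b ^ (2 ^ (r - 1)) = 1 + 2 ^ (r + 1) * y := by
    obtain ⟨l, rfl⟩ : ∃ l, r = l + 2 := ⟨r - 2, by omega⟩
    exact Pool.Agent.Y875.FP.odd_pow_eq hbo l
  obtain ⟨hy0, hv⟩ := val_y hr hbo hb1 hy
  have hlaw : (Nat.fermatNumber (j + r)).Prime →
      (b : ZMod (Nat.fermatNumber (j + r))) ^ (2 ^ (2 ^ (j + r) - (r + 1))) *
        2 ^ (2 ^ j * y) = (-1) ^ (sgnExp j b) := by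
    intro hF
    obtain ⟨y', hy', h⟩ := law hr hF hb0 hb
    have : y' = y := by
      rw [hy] at hy'
      exact (Nat.eq_of_mul_eq_mul_left (by positivity) (Nat.add_left_cancel hy')).symm
    rw [← this]
    exact h
  rw [hexp]
  refine ⟨y, hy, hv, hlaw, fun hc => ?_⟩
  have hvr : padicValNat 2 y ≤ j + r := by rcases hc with h | h <;> omega
  exact ⟨⟨hlaw, fun h => prime_of_order (by omega) hvr b (order_of_law hr hy0 hc h)⟩,
    ⟨fun hF => order_of_law hr hy0 hc (hlaw hF), fun h => prime_of_order (by omega) hvr b h⟩⟩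

end Pool.Agent.Results.MP_37e5fa_nt.SmallerFermatFactors
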